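import Pool.Agent.Run7.h275.S.I0

/-!
# The local rings of a scheme covered by spectra of subrings (piece STK of helper275's project)
-/

set_option autoImplicit false
set_option linter.unusedVariables false

namespace Run7.h596.SC

open AlgebraicGeometry CategoryTheory Pool.Agent.W418.LU2 Pool.Agent.Run7.h275.RB Pool.Agent.Run7.h275.SC

section

variable {F : Type} [Field F]

lemma unit_ofPrime (B : Subring F) (P : Ideal B) [P.IsPrime] (b : B) (hb : b ∉ P) :
    (b : F) ≠ 0 ∧ (b : F)⁻¹ ∈ (LocalSubring.ofPrime B P).toSubring := by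
  have h1 : IsUnit (algebraMap B (LocalSubring.ofPrime B P).toSubring b) :=
    (IsLocalization.AtPrime.isUnit_to_map_iff _ P b).2 hb
  obtain ⟨y, hy⟩ := isUnit_iff_exists_inv.1 h1
  have h2 : (b : F) * y = 1 := congrArg Subtype.val hy
  refine ⟨left_ne_zero_of_mul_eq_one h2, ?_⟩
  rw [← eq_inv_of_mul_eq_one_right h2]
  exact y.2

/-- The local ring at the centre of a valuation ring. -/
lemma lo_eq_ofPrime (B : Subring F) (P : Ideal B) [P.IsPrime] (V : ValuationSubring F)
    (hV : LocalSubring.ofPrime B P ≤ V.toLocalSubring) :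
    lo V.toSubring B = (LocalSubring.ofPrime B P).toSubring := by
  obtain ⟨h1, h2⟩ := hV
  have h1' : ∀ x ∈ (LocalSubring.ofPrime B P).toSubring, x ∈ V.toSubring := fun x hx => h1 hx
  apply le_antisymm
  · rintro x ⟨a, ha, b, hb, hb0, hbV, rfl⟩
    have hbP : (⟨b, hb⟩ : B) ∉ P := by
      intro h
      have h3 : IsUnit (algebraMap B (LocalSubring.ofPrime B P).toSubring ⟨b, hb⟩) := by
        apply h2.map_nonunit
        refine isUnit_iff_exists_inv.2 ⟨⟨b⁻¹, hbV⟩, Subtype.ext ?_⟩
        exact mul_inv_cancel₀ hb0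
      exact (IsLocalization.AtPrime.isUnit_to_map_iff _ P _).1 h3 h
    exact Subring.mul_mem _ (LocalSubring.le_ofPrime B P ha) (unit_ofPrime B P ⟨b, hb⟩ hbP).2
  · intro x hx
    obtain ⟨⟨a, s⟩, h3⟩ := IsLocalization.surj P.primeCompl
      (⟨x, hx⟩ : (LocalSubring.ofPrime B P).toSubring)
    have h4 : x * ((s : B) : F) = (a : F) := congrArg Subtype.val h3
    have h5 := unit_ofPrime B P s s.2
    refine ⟨a, a.2, ((s : B) : F), (s : B).2, h5.1, h1' _ h5.2, ?_⟩
    rw [← h4, mul_assoc, mul_inv_cancel₀ h5.1, mul_one]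

lemma exists_center (B : Subring F) (P : Ideal B) [P.IsPrime] :
    ∃ V : ValuationSubring F, B ≤ V.toSubring ∧
      lo V.toSubring B = (LocalSubring.ofPrime B P).toSubring := by
  obtain ⟨V, hV⟩ := (LocalSubring.ofPrime B P).exists_le_valuationSubring
  exact ⟨V, (LocalSubring.le_ofPrime B P).trans hV.1, lo_eq_ofPrime B P V hV⟩

end

noncomputable def stalkEquiv {F : Type} [Field F] (B : Subring F) (x : PrimeSpectrum B) :
    (LocalSubring.ofPrime B x.asIdeal).toSubring ≃+* ((Spec.structureSheaf B).presheaf.stalk x) :=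
  have := StructureSheaf.IsLocalization.to_stalk B x
  (IsLocalization.algEquiv x.asIdeal.primeCompl (LocalSubring.ofPrime B x.asIdeal).toSubring
      ((Spec.structureSheaf B).presheaf.stalk x)).toRingEquiv

theorem t_STK : S_STK := by
  intro F _ 𝓑 Y ι hι hcov hreg y
  obtain ⟨B, hB, x, rfl⟩ := hcov y
  have := hι B hB
  let x' : PrimeSpectrum B := x
  obtain ⟨V, hV, hlo⟩ := exists_center B x'.asIdeal
  have h1 : IsRegularLocalRing (LocalSubring.ofPrime B x'.asIdeal).toSubring := by
    rw [← hlo]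
    exact hreg B hB V hV
  have e1 : (LocalSubring.ofPrime B x'.asIdeal).toSubring ≃+*
      ((Spec (CommRingCat.of B)).presheaf.stalk x) := stalkEquiv B x'
  have e2 := (asIso ((ι B hB).stalkMap x)).commRingCatIsoToRingEquiv
  exact IsRegularLocalRing.of_ringEquiv (e1.trans e2.symm)

end Run7.h596.SC
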