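import Pool.Agent.Run7.h275.S.I0

/-!
# Charts of an integral scheme given by subrings of the function field (piece DCT of helper275's project)
-/

set_option autoImplicit false
set_option linter.unusedVariables false

namespace Run7.h596.SC

open AlgebraicGeometry CategoryTheory Pool.Agent.W418.LU2 Pool.Agent.Run7.h275.RB Pool.Agent.Run7.h275.SC

/-- The sections over a nonempty open set as a subring of the function field. -/
noncomputable def ch (X : Scheme.{0}) [IsIntegral X] (U : X.Opens) [Nonempty U] :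
    Subring (X.functionField : Type) :=
  (X.germToFunctionField U).hom.range

noncomputable def chEquiv (X : Scheme.{0}) [IsIntegral X] (U : X.Opens) [Nonempty U] :
    (Γ(X, U) : Type) ≃+* ch X U :=
  RingEquiv.ofBijective (X.germToFunctionField U).hom.rangeRestrict
    ⟨fun a b h => X.germToFunctionField_injective U (congrArg Subtype.val h),
      RingHom.rangeRestrict_surjective _⟩

/-- The chart. -/
noncomputable def chj (X : Scheme.{0}) [IsIntegral X] (U : X.Opens) [Nonempty U]
    (hU : IsAffineOpen U) : Sp (ch X U) ⟶ X :=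
  Spec.map (chEquiv X U).toCommRingCatIso.hom ≫ hU.fromSpec

instance chj_open (X : Scheme.{0}) [IsIntegral X] (U : X.Opens) [Nonempty U]
    (hU : IsAffineOpen U) : IsOpenImmersion (chj X U hU) := by
  unfold chj
  infer_instance

lemma mem_gen (X : Scheme.{0}) [IsIntegral X] (U : X.Opens) [h : Nonempty U] : genericPoint X ∈ U :=
  ((genericPoint_spec X).mem_open_set_iff U.isOpen).mpr (by simpa using h)

lemma gen_chj (X : Scheme.{0}) [IsIntegral X] (U : X.Opens) [Nonempty U] (hU : IsAffineOpen U) :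
    gen (ch X U) ≫ chj X U hU = X.fromSpecStalk (genericPoint X) := by
  rw [← hU.fromSpecStalk_eq_fromSpecStalk (mem_gen X U)]
  unfold gen chj IsAffineOpen.fromSpecStalk
  rw [← Category.assoc, ← Spec.map_comp]
  congr 1

lemma chj_surj (X : Scheme.{0}) [IsIntegral X] (U : X.Opens) [Nonempty U] (hU : IsAffineOpen U)
    (x : X) (hx : x ∈ U) : ∃ z, chj X U hU z = x := by
  have h1 : x ∈ hU.fromSpec.opensRange := by
    rw [hU.opensRange_fromSpec]
    exact hx
  obtain ⟨y, hy⟩ := h1
  obtain ⟨z, hz⟩ := (Spec.map (chEquiv X U).toCommRingCatIso.hom).surjective y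
  refine ⟨z, ?_⟩
  rw [← hy, ← hz]
  rfl

lemma chFr (X : Scheme.{0}) [IsIntegral X] (U : X.Opens) [Nonempty U] (hU : IsAffineOpen U) :
    Fr (ch X U) := by
  intro z
  have := functionField_isFractionRing_of_isAffineOpen X U hU
  obtain ⟨a, b, hb, h⟩ := IsFractionRing.div_surjective (A := Γ(X, U)) (K := X.functionField) z
  refine ⟨_, ⟨a, rfl⟩, _, ⟨b, rfl⟩, ?_, h.symm⟩
  intro h0
  exact nonZeroDivisors.ne_zero hb (X.germToFunctionField_injective U (h0.trans (map_zero _).symm))

lemma key (O : Type) [CommRing O] (X : Scheme.{0}) [IsIntegral X] (f : X ⟶ Spec (CommRingCat.of O))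
    (U : X.Opens) [Nonempty U] (hU : IsAffineOpen U) :
    X.fromSpecStalk (genericPoint X) ≫ f =
      Spec.map ((Scheme.ΓSpecIso (.of O)).inv ≫ f.appLE ⊤ U le_top ≫ X.germToFunctionField U) := by
  have h1 := IsAffineOpen.SpecMap_appLE_fromSpec f (isAffineOpen_top (Spec (CommRingCat.of O))) hU le_top
  rw [IsAffineOpen.fromSpec_top, Scheme.isoSpec_Spec_inv] at h1
  rw [← hU.fromSpecStalk_eq_fromSpecStalk (mem_gen X U)]
  unfold IsAffineOpen.fromSpecStalk
  rw [Category.assoc, ← h1, ← Spec.map_comp, ← Spec.map_comp]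
  rfl

lemma fgo_ch (O : Type) [CommRing O] (X : Scheme.{0}) [IsIntegral X] (f : X ⟶ Spec (CommRingCat.of O))
    (hf : LocallyOfFiniteType f) (U : X.Opens) [Nonempty U] (hU : IsAffineOpen U)
    [Algebra O (X.functionField : Type)]
    (hα : algebraMap O (X.functionField : Type) =
      ((Scheme.ΓSpecIso (.of O)).inv ≫ f.appLE ⊤ U le_top ≫ X.germToFunctionField U).hom) :
    FGO O (ch X U) := by
  have h1 : RingHom.FiniteType (f.appLE ⊤ U le_top).hom :=
    f.finiteType_appLE (isAffineOpen_top _) hU le_top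
  have h2 : RingHom.FiniteType ((Scheme.ΓSpecIso (.of O)).inv).hom :=
    RingHom.FiniteType.of_surjective _
      (ConcreteCategory.bijective_of_isIso (Scheme.ΓSpecIso (.of O)).inv).2
  let ψ : O →+* Γ(X, U) := (f.appLE ⊤ U le_top).hom.comp ((Scheme.ΓSpecIso (.of O)).inv).hom
  have h3 : RingHom.FiniteType ψ := h1.comp h2
  let _ : Algebra O Γ(X, U) := ψ.toAlgebra
  obtain ⟨s, hs⟩ := (show Algebra.FiniteType O Γ(X, U) from h3).1
  let ρ : Γ(X, U) →ₐ[O] (X.functionField : Type) :=
    { (X.germToFunctionField U).hom with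
      commutes' := fun o => by
        rw [hα]
        rfl }
  classical
  refine ⟨s.image ρ, ?_⟩
  have h4 : Algebra.adjoin O (ρ '' (s : Set Γ(X, U))) = ρ.range := by
    rw [← AlgHom.map_adjoin, hs, Algebra.map_top]
  rw [Finset.coe_image, h4]
  ext x
  rfl

theorem t_DCT : S_DCT := by
  intro O _ X _ f hf hq
  have hc : CompactSpace X := QuasiCompact.compactSpace_of_compactSpace f
  let F : Type := (X.functionField : Type)
  let g₀ : Spec (CommRingCat.of F) ⟶ X := X.fromSpecStalk (genericPoint X)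
  let α : CommRingCat.of O ⟶ CommRingCat.of F := Spec.preimage (g₀ ≫ f)
  have hα : Spec.map α = g₀ ≫ f := Spec.map_preimage _
  let _ : Algebra O F := α.hom.toAlgebra
  have h0 : ∀ x : X, ∃ U : X.Opens, IsAffineOpen U ∧ x ∈ U := fun x => by
    obtain ⟨U, hU, hx, -⟩ := exists_isAffineOpen_mem_and_subset (x := x) (U := ⊤) trivial
    exact ⟨U, hU, hx⟩
  choose U hU hxU using h0
  obtain ⟨t, ht⟩ := CompactSpace.elim_nhds_subcover (fun x => (U x : Set X))
    (fun x => (U x).isOpen.mem_nhds (hxU x))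
  have hne : ∀ x, Nonempty (U x) := fun x => ⟨⟨x, hxU x⟩⟩
  let e := t.equivFin
  refine ⟨F, inferInstance, inferInstance, RingEquiv.refl _, g₀, t.card,
    fun i => ch X (U (e.symm i)), fun i => chj X (U (e.symm i)) (hU _), fun i => ⟨?_, ?_, ?_, ?_⟩, ?_, ?_, ?_⟩
  · refine fgo_ch O X f hf _ (hU _) ?_
    have h5 : α = ((Scheme.ΓSpecIso (.of O)).inv ≫ f.appLE ⊤ (U (e.symm i)) le_top ≫
        X.germToFunctionField (U (e.symm i))) := by
      apply Spec.map_injective
      rw [hα]
      exact key O X f _ (hU _)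
    exact congrArg CommRingCat.Hom.hom h5
  · exact chFr X _ (hU _)
  · infer_instance
  · exact gen_chj X _ (hU _)
  · intro x
    have h6 : x ∈ ⋃ y ∈ t, (U y : Set X) := by
      rw [ht]
      trivial
    simp only [Set.mem_iUnion] at h6
    obtain ⟨y, hy, hxy⟩ := h6
    refine ⟨e ⟨y, hy⟩, ?_⟩
    have h7 : ((e.symm (e ⟨y, hy⟩) : t) : X) = y := by simp
    apply chj_surj
    rw [h7]
    exact hxy
  · exact hα.symm
  · intro x
    have h8 : x = IsLocalRing.closedPoint F := Subsingleton.elim _ _
    rw [h8]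
    exact Scheme.fromSpecStalk_closedPoint

end Run7.h596.SC
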